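import Pool.Agent.H28.MCL.Targets

/-!
Row SYM: a product of two values at distance `Δ` of a product of Liouville values at shifts is
again a product of Liouville values at shifts.
-/

set_option autoImplicit false

open Finset Filter

namespace Pool.Agent.H85.MCL

open Pool.Agent.H28.MCL
open Pool.Agent.H24.MR (lam)

private lemma prod_sq_one {ι : Type*} (A : Finset ι) (f : ι → ℝ) (hf : ∀ i, f i ^ 2 = 1) :
    (∏ i ∈ A, f i) * (∏ i ∈ A, f i) = 1 := by
  rw [← Finset.prod_mul_distrib]
  apply Finset.prod_eq_one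
  intro i _
  have := hf i
  rw [sq] at this
  exact this

private lemma prod_symm {ι : Type*} [DecidableEq ι] (A B : Finset ι) (f : ι → ℝ)
    (hf : ∀ i, f i ^ 2 = 1) :
    (∏ i ∈ A, f i) * (∏ i ∈ B, f i) = ∏ i ∈ symmDiff A B, f i := by
  have h1 : ∏ i ∈ A, f i = (∏ i ∈ A \ B, f i) * ∏ i ∈ A ∩ B, f i := by
    rw [← Finset.prod_union (Finset.disjoint_sdiff_inter A B), Finset.sdiff_union_inter]
  have h2 : ∏ i ∈ B, f i = (∏ i ∈ B \ A, f i) * ∏ i ∈ A ∩ B, f i := by
    rw [Finset.inter_comm A B,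
      ← Finset.prod_union (Finset.disjoint_sdiff_inter B A), Finset.sdiff_union_inter]
  have h3 : ∏ i ∈ symmDiff A B, f i = (∏ i ∈ A \ B, f i) * ∏ i ∈ B \ A, f i := by
    have hd : Disjoint (A \ B) (B \ A) := by
      rw [Finset.disjoint_left]
      intro i hi hj
      rw [Finset.mem_sdiff] at hi hj
      exact hi.2 hj.1
    rw [← Finset.prod_union hd]
    rfl
  have h4 := prod_sq_one (A ∩ B) f hf
  rw [h1, h2, h3]
  calc (∏ i ∈ A \ B, f i) * (∏ i ∈ A ∩ B, f i) * ((∏ i ∈ B \ A, f i) * ∏ i ∈ A ∩ B, f i)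
      = (∏ i ∈ A \ B, f i) * (∏ i ∈ B \ A, f i) *
        ((∏ i ∈ A ∩ B, f i) * ∏ i ∈ A ∩ B, f i) := by ring
    _ = _ := by rw [h4, mul_one]

theorem sym : T_SYM := by
  intro S Δ hS hΔ
  set B : Finset ℤ := S.image (fun a => a + (Δ : ℤ)) with hB
  have hinj : Function.Injective (fun a : ℤ => a + (Δ : ℤ)) := by
    intro a b h
    simpa using h
  refine ⟨symmDiff S B, ?_, ?_, ?_⟩
  · refine ⟨S.max' hS + Δ, ?_⟩
    rw [Finset.mem_symmDiff]
    right
    refine ⟨?_, ?_⟩
    · rw [hB, Finset.mem_image]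
      exact ⟨S.max' hS, S.max'_mem hS, rfl⟩
    · intro h
      have h1 := S.le_max' _ h
      have h2 : (0 : ℤ) < (Δ : ℤ) := by exact_mod_cast hΔ
      omega
  · have h1 : (symmDiff S B).card ≤ S.card + B.card := by
      have h2 : symmDiff S B ⊆ S ∪ B := by
        intro i hi
        rw [Finset.mem_symmDiff] at hi
        rw [Finset.mem_union]
        rcases hi with h | h
        · exact Or.inl h.1
        · exact Or.inr h.1
      exact (Finset.card_le_card h2).trans (Finset.card_union_le S B)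
    have h2 : B.card ≤ S.card := Finset.card_image_le
    omega
  · intro y
    have h1 : gs S (y + Δ) = ∏ b ∈ B, lam ((y : ℤ) + b).toNat := by
      unfold gs
      rw [hB, Finset.prod_image (fun a _ b _ h => hinj h)]
      apply Finset.prod_congr rfl
      intro a _
      congr 2
      push_cast
      ring
    rw [h1]
    unfold gs
    exact prod_symm S B (fun b => lam ((y : ℤ) + b).toNat)
      (fun b => Pool.Agent.H27.T2.lam_sq _)

end Pool.Agent.H85.MCL
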